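import Pool.Agent.W313.Hyp.KD3
import Pool.Agent.H123R3.ZT.Const
import Pool.Agent.W343.BSD.Rel

/-!
The places over a place in an extension of the field of constants.
-/

set_option autoImplicit false
set_option linter.all false
set_option maxHeartbeats 4000000

open Module FF Polynomial

namespace Pool.Agent.Y701.CB

open Pool.Agent.W343.BSD Pool.Agent.H123R3.ZT Pool.Agent.W313.Hyp

/-- the degree of an irreducible factor over an extension of finite fields -/
theorem factor_deg {k κ : Type} [Field k] [Finite k] [Field κ] [Finite κ] [Algebra k κ]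
    {μ : k[X]} (hμ : Irreducible μ) (hm : μ.Monic) {P : κ[X]} (hP : Irreducible P)
    (hdvd : P ∣ μ.map (algebraMap k κ)) :
    finrank k κ * P.natDegree = Nat.lcm (finrank k κ) μ.natDegree := by
  classical
  have : Fact (Irreducible P) := ⟨hP⟩
  have hP0 := hP.ne_zero
  have hfr : finrank κ (AdjoinRoot P) = P.natDegree := finrank_quotient_span_eq_natDegree
  have hpos : 0 < P.natDegree := hP.natDegree_pos
  have : Module.Finite κ (AdjoinRoot P) := Module.finite_of_finrank_pos (by omega)
  have : Finite (AdjoinRoot P) := Module.finite_of_finite κ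
  have : Module.Finite k κ := Module.Finite.of_finite
  have : Module.Finite k (AdjoinRoot P) := Module.Finite.of_finite
  have htow : finrank k (AdjoinRoot P) = finrank k κ * P.natDegree := by
    rw [← hfr, finrank_mul_finrank]
  set ρ : AdjoinRoot P := AdjoinRoot.root P with hρ
  have hroot : aeval ρ μ = 0 := by
    obtain ⟨Q, hQ⟩ := hdvd
    have h1 : aeval ρ (μ.map (algebraMap k κ)) = 0 := by
      rw [hQ, map_mul, AdjoinRoot.aeval_eq, AdjoinRoot.mk_self, zero_mul]
    rwa [aeval_map_algebraMap] at h1
  have hmin : minpoly k ρ = μ := (minpoly.eq_of_irreducible_of_monic hμ hroot hm).symm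
  have hint : IsIntegral k ρ := Algebra.IsIntegral.isIntegral ρ
  rw [← htow]
  apply Nat.dvd_antisymm
  · -- the Frobenius
    have : Fintype k := Fintype.ofFinite k
    have : Fintype κ := Fintype.ofFinite κ
    have : Fintype (AdjoinRoot P) := Fintype.ofFinite _
    set q := Fintype.card k with hq
    set N := Nat.lcm (finrank k κ) μ.natDegree with hN
    rw [← FiniteField.orderOf_frobeniusAlgHom k (AdjoinRoot P), orderOf_dvd_iff_pow_eq_one]
    have hpow : ∀ (m : ℕ) (x : AdjoinRoot P),
        (FiniteField.frobeniusAlgHom k (AdjoinRoot P) ^ m) x = x ^ q ^ m := by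
      intro m x
      rw [AlgHom.coe_pow, FiniteField.coe_frobeniusAlgHom, pow_iterate]
    have h1 : ((FiniteField.frobeniusAlgHom k (AdjoinRoot P) ^ N : AdjoinRoot P →ₐ[k] AdjoinRoot P)
        : AdjoinRoot P →+* AdjoinRoot P) = RingHom.id _ := by
      apply AdjoinRoot.ringHom_ext
      · ext c
        show (FiniteField.frobeniusAlgHom k (AdjoinRoot P) ^ N) (AdjoinRoot.of P c) =
          AdjoinRoot.of P c
        rw [hpow, ← map_pow]
        congr 1
        obtain ⟨j, hj⟩ := Nat.dvd_lcm_left (finrank k κ) μ.natDegree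
        rw [hN, hj, pow_mul, hq, ← Module.card_eq_pow_finrank (K := k) (V := κ)]
        exact FiniteField.pow_card_pow j c
      · show (FiniteField.frobeniusAlgHom k (AdjoinRoot P) ^ N) ρ = ρ
        rw [hpow]
        obtain ⟨j, hj⟩ := Nat.dvd_lcm_right (finrank k κ) μ.natDegree
        have h2 : ρ ^ q ^ μ.natDegree = ρ := by
          have h3 : finrank k (IntermediateField.adjoin k {ρ}) = μ.natDegree := by
            rw [IntermediateField.adjoin.finrank hint, hmin]
          have : Fintype (IntermediateField.adjoin k {ρ}) := Fintype.ofFinite _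
          have h4 := FiniteField.pow_card (IntermediateField.AdjoinSimple.gen k ρ)
          rw [Module.card_eq_pow_finrank (K := k), h3] at h4
          have h5 := congrArg (algebraMap (IntermediateField.adjoin k {ρ}) (AdjoinRoot P)) h4
          rw [map_pow, IntermediateField.AdjoinSimple.algebraMap_gen] at h5
          exact h5
        rw [hN, hj, pow_mul]
        clear hj
        induction j with
        | zero => rw [pow_zero, pow_one]
        | succ j ih => rw [pow_succ, pow_mul, ih, h2]
    apply AlgHom.coe_ringHom_injective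
    exact h1
  · apply Nat.lcm_dvd
    · rw [htow]
      exact dvd_mul_right _ _
    · rw [← hmin]
      exact minpoly.degree_dvd hint

section fib

variable {k K K' : Type} [Field k] [Finite k] [Field K] [Algebra k K] [FF.IsFF k K]
  [Field K'] [Algebra k K'] [Algebra K K'] [IsScalarTower k K K'] [FF.IsFF k K']
  [FiniteDimensional K K']

/-- the fibres in a constant extension -/
theorem const_fiber {μ : k[X]} (hμ : Irreducible μ) (hm : μ.Monic)
    (hconst : ∀ a : K, IsAlgebraic k a → a ∈ (algebraMap k K).range) {θ : K'}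
    (hroot : aeval θ μ = 0) (hfr : finrank K K' = μ.natDegree) (v : Place k K) :
    ∃ S : Finset (Place k K'), (∀ w e, Over w v e → w ∈ S) ∧ (∀ w ∈ S, Over w v 1 ∧
      w.deg = Nat.lcm v.deg μ.natDegree) ∧
      S.card * Nat.lcm v.deg μ.natDegree = v.deg * μ.natDegree := by
  classical
  have hsep0 : μ.Separable := PerfectField.separable_of_irreducible hμ
  have hirr := irr_map hconst hm hμ
  have hroot' : aeval θ (μ.map (algebraMap k K)) = 0 := by
    rw [aeval_map_algebraMap]; exact hroot
  have hmin : minpoly K θ = μ.map (algebraMap k K) :=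
    (minpoly.eq_of_irreducible_of_monic hirr hroot' (hm.map _)).symm
  have hint : IsIntegral K θ := Algebra.IsIntegral.isIntegral θ
  have hgen : IntermediateField.adjoin K {θ} = ⊤ := by
    have h1 : finrank K (IntermediateField.adjoin K {θ}) = finrank K K' := by
      rw [IntermediateField.adjoin.finrank hint, hmin, natDegree_map, hfr]
    have h2 := IntermediateField.finrank_top' (F := K) (E := K')
    exact IntermediateField.eq_of_le_of_finrank_eq le_top (by rw [h1, h2])
  have hFam : IsFam (ι := Unit) (L := fun _ => K') (μ.map (algebraMap k K)) (fun _ => θ) :=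
    ⟨hm.map _, hsep0.map, fun _ => hgen, by simp [hmin]⟩
  have hsep := hFam.sep ()
  obtain ⟨S, e, d, D⟩ := exists_fiberData (k := k) (K := K) (ι := Unit) (L := fun _ => K')
    (fun _ => inferInstance) (fun _ => hsep) v
  have hF : (μ.map (kO v)).map v.O.subtype = μ.map (algebraMap k K) := by
    rw [Polynomial.map_map]
    rfl
  have hred : (μ.map (kO v)).map v.resHom = μ.map (algebraMap k v.RF) := by
    rw [Polynomial.map_map]
    congr 1
    ext c
    exact res_kO v c
  have hsq : Squarefree ((μ.map (kO v)).map v.resHom) := by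
    rw [hred]
    exact hsep0.map.squarefree
  have hfinRF : Finite v.RF := Module.finite_of_finite k
  have hkey : ∀ φ : ℕ → Multiplicative ℕ, ∏ w ∈ S (), φ w.deg =
      ∏ P ∈ facs (μ.map (algebraMap k v.RF)), φ (v.deg * P.1.natDegree) := by
    intro φ
    have h1 := kd_prod hFam v hF hsq D φ
    rw [hred] at h1
    simpa using h1
  have hmne : μ.map (algebraMap k v.RF) ≠ 0 := (hm.map _).ne_zero
  have hPdeg : ∀ P ∈ facs (μ.map (algebraMap k v.RF)),
      v.deg * P.1.natDegree = Nat.lcm v.deg μ.natDegree := by
    intro P hP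
    rw [mem_facs hmne] at hP
    exact factor_deg hμ hm P.2.2 hP
  have hdeg : ∀ w ∈ S (), w.deg = Nat.lcm v.deg μ.natDegree := by
    have h1 := hkey (fun n => Multiplicative.ofAdd (if n = Nat.lcm v.deg μ.natDegree then 0 else 1))
    have h2 : ∑ w ∈ S (), (if w.deg = Nat.lcm v.deg μ.natDegree then 0 else 1) = 0 := by
      have h3 := congrArg Multiplicative.toAdd h1
      rw [toAdd_prod, toAdd_prod] at h3
      simp only [toAdd_ofAdd] at h3
      rw [h3]
      apply Finset.sum_eq_zero
      intro P hP
      rw [if_pos (hPdeg P hP)]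
    intro w hw
    have h4 := (Finset.sum_eq_zero_iff.1 h2) w hw
    by_contra h5
    rw [if_neg h5] at h4
    exact one_ne_zero h4
  have hsumdeg : ∑ w ∈ S (), w.deg = v.deg * μ.natDegree := by
    have h1 := hkey (fun n => Multiplicative.ofAdd n)
    have h3 := congrArg Multiplicative.toAdd h1
    rw [toAdd_prod, toAdd_prod] at h3
    simp only [toAdd_ofAdd] at h3
    rw [h3, ← Finset.mul_sum, sum_facs (hm.map _) hsep0.map.squarefree, natDegree_map]
  have hv := deg_pos' v
  have hsum := D.sum ()
  have hd : ∑ w ∈ S (), d ⟨(), w⟩ = finrank K K' := by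
    apply Nat.eq_of_mul_eq_mul_left hv
    rw [Finset.mul_sum, hfr, ← hsumdeg]
    exact Finset.sum_congr rfl fun w hw => (D.deg () w hw).symm
  have he : ∀ w ∈ S (), e ⟨(), w⟩ = 1 := by
    have hle : ∀ w ∈ S (), d ⟨(), w⟩ ≤ e ⟨(), w⟩ * d ⟨(), w⟩ := fun w hw =>
      Nat.le_mul_of_pos_left _ (D.isOver () w hw).1
    have h1 := (Finset.sum_eq_sum_iff_of_le hle).1 (by rw [hd, hsum])
    intro w hw
    have h2 := h1 w hw
    have h3 := D.pos () w hw
    have h4 : d ⟨(), w⟩ * 1 = d ⟨(), w⟩ * e ⟨(), w⟩ := by rw [mul_one, mul_comm]; exact h2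
    exact (Nat.eq_of_mul_eq_mul_left h3 h4).symm
  refine ⟨S (), fun w e' h => D.mem () w e' h, fun w hw => ⟨?_, hdeg w hw⟩, ?_⟩
  · have := D.isOver () w hw
    rwa [he w hw] at this
  · rw [← hsumdeg, Finset.sum_congr rfl hdeg, Finset.sum_const, smul_eq_mul]

end fib

end Pool.Agent.Y701.CB
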