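import Mathlib
import Pool.Agent.H82R3.EK.FF

/-!
Products over roots of unity of quadratic polynomials.
-/

set_option autoImplicit false
set_option linter.all false
set_option maxHeartbeats 4000000

open PowerSeries Finset

namespace Pool.Agent.Y701.CB

open Pool.Agent.H82R3.EK (luc)

theorem prod_unity {R : Type*} [CommRing R] [IsDomain R] {ξ : R} {f : ℕ} (hf : 0 < f)
    (h : IsPrimitiveRoot ξ f) (x : R) : ∏ i ∈ range f, (1 - ξ ^ i * x) = 1 - x ^ f := by
  classical
  have h1 := h.pow_sub_pow_eq_prod_sub_mul (1 : R) x hf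
  rw [one_pow] at h1
  rw [h1]
  refine prod_nbij (fun i => ξ ^ i) (fun i _ => ?_) (fun i hi j hj e => ?_) (fun z hz => ?_)
    (fun i _ => rfl)
  · rw [Polynomial.mem_nthRootsFinset hf, ← pow_mul, mul_comm, pow_mul, h.pow_eq_one, one_pow]
  · exact h.injOn_pow hi hj e
  · have : NeZero f := ⟨hf.ne'⟩
    rw [mem_coe, Polynomial.mem_nthRootsFinset hf] at hz
    obtain ⟨i, hi, rfl⟩ := h.eq_pow_of_pow_eq_one hz
    exact ⟨i, by simpa using hi, rfl⟩

theorem luc_alg {R : Type*} [CommRing R] {a c : ℤ} {α β : R} (h1 : α + β = a) (h2 : α * β = c) :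
    ∀ n : ℕ, ((luc a c n : ℤ) : R) = α ^ n + β ^ n
  | 0 => by simp [luc]; norm_num
  | 1 => by simp [luc, h1]
  | n + 2 => by
    rw [luc]
    push_cast
    rw [luc_alg h1 h2 (n + 1), luc_alg h1 h2 n, ← h1, ← h2]
    ring

/-- the Euler factor `1 - a T ^ d + c T ^ (2 d)` -/
noncomputable def EF (R : Type*) [CommRing R] (a c : ℤ) (d : ℕ) : PowerSeries R :=
  1 - C (a : R) * X ^ d + C (c : R) * X ^ (2 * d)

theorem rescale_C {R : Type*} [CommRing R] (u c : R) : rescale u (C c : PowerSeries R) = C c := by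
  ext n
  rw [coeff_rescale, coeff_C]
  split_ifs with h
  · rw [h, pow_zero, one_mul]
  · rw [mul_zero]

theorem rescale_Xpow {R : Type*} [CommRing R] (u : R) (d : ℕ) :
    rescale u (X ^ d : PowerSeries R) = C (u ^ d) * X ^ d := by
  rw [map_pow, rescale_X, mul_pow, ← map_pow]

theorem rescale_EF {R : Type*} [CommRing R] (u : R) (a c : ℤ) (d : ℕ) :
    rescale u (EF R a c d) =
      1 - C ((a : R) * u ^ d) * X ^ d + C ((c : R) * (u ^ d) ^ 2) * X ^ (2 * d) := by
  unfold EF
  rw [map_add, map_sub, map_one, map_mul, map_mul, rescale_C, rescale_C, rescale_Xpow,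
    rescale_Xpow, map_mul, map_mul, mul_assoc, mul_assoc, mul_comm 2 d, pow_mul u d 2]

theorem prod_range_periodic {M : Type*} [CommMonoid M] (h : ℕ → M) (f : ℕ)
    (hp : ∀ i, h (i + f) = h i) (g : ℕ) :
    ∏ i ∈ range (g * f), h i = (∏ i ∈ range f, h i) ^ g := by
  induction g with
  | zero => simp
  | succ g ih =>
    rw [Nat.succ_mul, prod_range_add, ih, pow_succ]
    congr 1
    refine prod_congr rfl fun i _ => ?_
    have : ∀ g : ℕ, h (g * f + i) = h i := by
      intro g
      induction g with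
      | zero => rw [zero_mul, zero_add]
      | succ g ih2 =>
        rw [Nat.succ_mul, add_right_comm, hp, ih2]
    exact this g

/-- the product over the roots of unity of order `f` -/
theorem prod_EF {R : Type} [Field R] {ξ : R} {f : ℕ} (hf : 0 < f) (hξ : IsPrimitiveRoot ξ f)
    (a c : ℤ) (d : ℕ) :
    ∏ i ∈ range f, (1 - C ((a : R) * ξ ^ i) * X ^ d + C ((c : R) * (ξ ^ i) ^ 2) * X ^ (2 * d) :
      PowerSeries R) = EF R (luc a c f) (c ^ f) (d * f) := by
  classical
  let A := AlgebraicClosure R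
  have hinj : Function.Injective (PowerSeries.map (algebraMap R A)) :=
    PowerSeries.map_injective _ (algebraMap R A).injective
  apply hinj
  -- the roots
  obtain ⟨α, hα⟩ : ∃ α : A, α ^ 2 - (a : A) * α + (c : A) = 0 := by
    have h1 := IsAlgClosed.exists_root (Polynomial.X ^ 2 - Polynomial.C (a : A) * Polynomial.X +
      Polynomial.C (c : A)) (by
        have h2 := Polynomial.degree_quadratic (R := A) (a := 1) (b := -(a : A)) (c := (c : A))
          one_ne_zero
        have h3 : (Polynomial.C 1 * Polynomial.X ^ 2 + Polynomial.C (-(a : A)) * Polynomial.X +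
          Polynomial.C (c : A)) = Polynomial.X ^ 2 - Polynomial.C (a : A) * Polynomial.X +
          Polynomial.C (c : A) := by
          rw [Polynomial.C_1, one_mul, Polynomial.C_neg]; ring
        rw [h3] at h2
        rw [h2]
        decide)
    obtain ⟨α, hα⟩ := h1
    refine ⟨α, ?_⟩
    rw [Polynomial.IsRoot.def] at hα
    simpa using hα
  obtain ⟨β, h1⟩ : ∃ β : A, α + β = (a : A) := ⟨(a : A) - α, by ring⟩
  have h2 : α * β = (c : A) := by linear_combination α * h1 - hα
  obtain ⟨ξ', hξ'⟩ : ∃ ξ' : A, ξ' = algebraMap R A ξ := ⟨_, rfl⟩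
  have hprim : IsPrimitiveRoot ξ' f := by
    rw [hξ']; exact hξ.map_of_injective (algebraMap R A).injective
  have hprimP : IsPrimitiveRoot (C ξ' : PowerSeries A) f :=
    hprim.map_of_injective (f := (PowerSeries.C (R := A))) PowerSeries.C_injective
  rw [map_prod]
  have e1 : ∀ i ∈ range f, PowerSeries.map (algebraMap R A)
      (1 - C ((a : R) * ξ ^ i) * X ^ d + C ((c : R) * (ξ ^ i) ^ 2) * X ^ (2 * d)) =
      (1 - (C ξ' : PowerSeries A) ^ i * (C α * X ^ d)) *
        (1 - (C ξ' : PowerSeries A) ^ i * (C β * X ^ d)) := by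
    intro i _
    simp only [map_add, map_sub, map_one, map_mul, map_pow, PowerSeries.map_C, PowerSeries.map_X]
    rw [map_intCast (algebraMap R A), map_intCast (algebraMap R A), ← h1, ← h2, ← hξ']
    simp only [map_mul, map_add, map_pow]
    ring
  rw [prod_congr rfl e1, prod_mul_distrib, prod_unity hf hprimP, prod_unity hf hprimP]
  unfold EF
  rw [RingHom.map_add, RingHom.map_sub, RingHom.map_one, RingHom.map_mul, RingHom.map_mul,
    PowerSeries.map_C, PowerSeries.map_C, RingHom.map_pow, RingHom.map_pow, PowerSeries.map_X,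
    map_intCast (algebraMap R A), map_intCast (algebraMap R A), luc_alg h1 h2 f, Int.cast_pow,
    ← h2]
  simp only [map_mul, map_add, map_pow]
  ring

/-- the product of the rescaled Euler factors -/
theorem prod_rescale_EF {R : Type} [Field R] {ζ : R} {r d f g : ℕ} (hr : r = g * f) (hf : 0 < f)
    (hζ : IsPrimitiveRoot (ζ ^ d) f) (a c : ℤ) :
    ∏ i ∈ range r, rescale (ζ ^ i) (EF R a c d) = EF R (luc a c f) (c ^ f) (d * f) ^ g := by
  have e1 : ∀ i, rescale (ζ ^ i) (EF R a c d) = 1 - C ((a : R) * (ζ ^ d) ^ i) * X ^ d +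
      C ((c : R) * ((ζ ^ d) ^ i) ^ 2) * X ^ (2 * d) := by
    intro i
    rw [rescale_EF, pow_right_comm]
  simp_rw [e1]
  rw [hr, prod_range_periodic (fun i => (1 - C ((a : R) * (ζ ^ d) ^ i) * X ^ d +
      C ((c : R) * ((ζ ^ d) ^ i) ^ 2) * X ^ (2 * d) : PowerSeries R)) f, prod_EF hf hζ]
  intro i
  simp only [pow_add, hζ.pow_eq_one, mul_one]

end Pool.Agent.Y701.CB
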