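import Pool.Agent.Y701.CB.Tr
import Pool.Agent.Y701.CB.Fib
import Pool.Agent.Y701.CB.Unity
import Pool.Agent.W343.BSD.RelL

/-!
The `L`-function of an elliptic curve over a function field in an extension of the field of
constants.
-/

set_option autoImplicit false
set_option linter.all false
set_option maxHeartbeats 4000000

open Module FF PowerSeries

namespace Pool.Agent.Y701.CB

open Pool.Agent.W343.BSD Pool.Agent.H123R3.ZT
open Pool.Agent.H82R3.EK (luc)

section loc

variable {k K : Type} [Field k] [Finite k] [Field K] [Algebra k K] [FF.IsFF k K]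

open Classical in
/-- `q_v` at the places of good reduction and `0` at the others -/
noncomputable def cv (v : Place k K) (a b : K) : ℤ :=
  if v.red (minDisc v a b) ≠ 0 then (Nat.card v.RF : ℤ) else 0

theorem coe_locFactor (v : Place k K) (a b : K) (R : Type*) [CommRing R] :
    PowerSeries.map (Int.castRingHom R) (locFactor v a b : PowerSeries ℤ) =
      EF R (trace v a b) (cv v a b) v.deg := by
  classical
  unfold locFactor EF cv
  rw [Polynomial.coe_add, Polynomial.coe_sub, Polynomial.coe_one, Polynomial.coe_mul,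
    Polynomial.coe_C, Polynomial.coe_pow, Polynomial.coe_X]
  split_ifs with h
  · rw [Polynomial.coe_mul, Polynomial.coe_C, Polynomial.coe_pow, Polynomial.coe_X]
    simp only [map_add, map_sub, map_one, map_mul, map_pow, PowerSeries.map_C, PowerSeries.map_X]
    rfl
  · rw [Polynomial.coe_zero]
    simp only [map_add, map_sub, map_one, map_mul, map_pow, PowerSeries.map_C, PowerSeries.map_X,
      map_zero, Int.cast_zero, zero_mul]
    rfl

theorem cv_eq_cc (v : Place k K) {a b : K} (hΔ : 4 * a ^ 3 + 27 * b ^ 2 ≠ 0) :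
    cv v a b = cc (v.red (minA v a b)) (v.red (minB v a b)) := by
  have hab := ab_of_disc hΔ
  unfold cv cc minDisc
  rw [red_disc (reg_minA v hab) (reg_minB v hab)]

end loc

section over_

variable {k K L : Type} [Field k] [Finite k] [Field K] [Algebra k K] [FF.IsFF k K] [Field L]
  [Algebra k L] [Algebra K L] [IsScalarTower k K L] [FF.IsFF k L]

theorem over_exact (h6 : (6 : k) ≠ 0) {w : Place k L} {v : Place k K} {f : ℕ} (h : Over w v 1)
    (hf : w.deg = v.deg * f) {a b : K} (hΔ : 4 * a ^ 3 + 27 * b ^ 2 ≠ 0) :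
    trace w (algebraMap K L a) (algebraMap K L b) = luc (trace v a b) (cv v a b) f ∧
      cv w (algebraMap K L a) (algebraMap K L b) = cv v a b ^ f := by
  classical
  have hab := ab_of_disc hΔ
  have hab' : algebraMap K L a ≠ 0 ∨ algebraMap K L b ≠ 0 := by
    rcases hab with h1 | h1
    · left; simpa using h1
    · right; simpa using h1
  have hf0 : f ≠ 0 := by
    rintro rfl
    rw [mul_zero] at hf
    exact (deg_pos' w).ne' hf
  have hcase : (1 : ℕ) = 1 ∨ v.red (minA v a b) ≠ 0 ∨ v.red (minDisc v a b) ≠ 0 := Or.inl rfl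
  have hc := minScale_spec v hab
  have hcw := isMin_over h hc hcase
  let _ : Algebra v.RF w.RF := h.resMap.toRingHom.toAlgebra
  have hdeg := deg_over h
  rw [hf] at hdeg
  have hfr : finrank v.RF w.RF = f := (Nat.eq_of_mul_eq_mul_left (deg_pos' v) hdeg).symm
  have h2 : (2 : v.RF) ≠ 0 := by
    have := ne_RF v (two_ne h6)
    exact_mod_cast this
  have h3 : (3 : v.RF) ≠ 0 := by
    have := ne_RF v (three_ne h6)
    exact_mod_cast this
  have e4 : w.red (algebraMap K L (minScale v a b) ^ 4 * algebraMap K L a) =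
      algebraMap v.RF w.RF (v.red (minA v a b)) := by
    rw [← map_pow, ← map_mul]
    exact (h.resMap_red (reg_minA v hab)).symm
  have e6 : w.red (algebraMap K L (minScale v a b) ^ 6 * algebraMap K L b) =
      algebraMap v.RF w.RF (v.red (minB v a b)) := by
    rw [← map_pow, ← map_mul]
    exact (h.resMap_red (reg_minB v hab)).symm
  constructor
  · rw [trace_of_min w hab' hcw, e4, e6, trace_ext h2 h3, hfr, cv_eq_cc v hΔ]
    rfl
  · have hd := disc_over h hΔ hcase
    unfold cv
    by_cases h0 : v.red (minDisc v a b) ≠ 0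
    · rw [if_pos h0, if_pos (hd.2 h0)]
      have hcard := Module.natCard_eq_pow_finrank (K := v.RF) (V := w.RF)
      rw [hcard, hfr]
      push_cast
      rfl
    · rw [if_neg h0, if_neg (fun h1 => h0 (hd.1 h1)), zero_pow hf0]

end over_

section main

variable {k K K' : Type} [Field k] [Finite k] [Field K] [Algebra k K] [FF.IsFF k K]
  [Field K'] [Algebra k K'] [Algebra K K'] [IsScalarTower k K K'] [FF.IsFF k K']
  [FiniteDimensional K K']

theorem rescale_eulerProd {R : Type*} [CommRing R] {ι : Type*} {d : ι → ℕ}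
    (hfin : ∀ n, {i | d i ≤ n}.Finite) (f : ι → PowerSeries R) (u : R) :
    rescale u (eulerProd d f) = eulerProd d (fun i => rescale u (f i)) := by
  ext n
  rw [coeff_rescale, coeff_eulerProd hfin, coeff_eulerProd hfin, ← map_prod, coeff_rescale]

/-- the local identity -/
theorem local_identity (h6 : (6 : k) ≠ 0) {r : ℕ} (hr0 : 0 < r) {a b : K}
    (hΔ : 4 * a ^ 3 + 27 * b ^ 2 ≠ 0) {R : Type} [Field R] {ζ : R} (hζ : IsPrimitiveRoot ζ r)
    (v : Place k K) (S : Finset (Place k K'))
    (hS2 : ∀ w ∈ S, Over w v 1 ∧ w.deg = Nat.lcm v.deg r)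
    (hS3 : S.card * Nat.lcm v.deg r = v.deg * r) :
    ∏ w ∈ S, PowerSeries.map (Int.castRingHom R)
        (locFactor w (algebraMap K K' a) (algebraMap K K' b) : PowerSeries ℤ) =
      ∏ i ∈ Finset.range r, rescale (ζ ^ i)
        (PowerSeries.map (Int.castRingHom R) (locFactor v a b : PowerSeries ℤ)) := by
  classical
  set d := v.deg with hd
  have hd0 : 0 < d := deg_pos' v
  obtain ⟨f, hf⟩ := Nat.dvd_lcm_left d r
  have hlpos : 0 < Nat.lcm d r := Nat.lcm_pos hd0 hr0
  have hf0 : 0 < f := by
    rcases Nat.eq_zero_or_pos f with h0 | h0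
    · rw [h0, mul_zero] at hf; omega
    · exact h0
  have hcard : r = S.card * f := by
    have h1 := hS3
    rw [hf] at h1
    have h2 : d * (S.card * f) = d * r := by rw [← h1]; ring
    exact (Nat.eq_of_mul_eq_mul_left hd0 h2).symm
  have hgcd : Nat.gcd r d * f = r := by
    have h1 := Nat.gcd_mul_lcm d r
    rw [hf, Nat.gcd_comm] at h1
    have h2 : d * (Nat.gcd r d * f) = d * r := by rw [← h1]; ring
    exact Nat.eq_of_mul_eq_mul_left hd0 h2
  have hgpos : 0 < Nat.gcd r d := Nat.gcd_pos_of_pos_left _ hr0
  have hprim : IsPrimitiveRoot (ζ ^ d) f := by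
    have h1 : orderOf (ζ ^ d) = f := by
      rw [orderOf_pow' ζ hd0.ne', ← hζ.eq_orderOf]
      exact Nat.div_eq_of_eq_mul_right hgpos hgcd.symm
    rw [← h1]
    exact IsPrimitiveRoot.orderOf _
  have h1 : ∀ w ∈ S, PowerSeries.map (Int.castRingHom R)
      (locFactor w (algebraMap K K' a) (algebraMap K K' b) : PowerSeries ℤ) =
      EF R (luc (trace v a b) (cv v a b) f) (cv v a b ^ f) (d * f) := by
    intro w hw
    obtain ⟨h2, h3⟩ := hS2 w hw
    have h4 : w.deg = v.deg * f := by rw [h3, ← hd, hf]
    obtain ⟨h5, h7⟩ := over_exact h6 h2 h4 hΔ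
    rw [coe_locFactor, h5, h7, h4]
  rw [Finset.prod_congr rfl h1, Finset.prod_const]
  simp_rw [coe_locFactor]
  exact (prod_rescale_EF hcard hf0 hprim _ _).symm

/-- The `L`-function over a constant extension of degree `r` is the product of the rescaled
`L`-functions. -/
theorem base_change (h6 : (6 : k) ≠ 0) {μ : Polynomial k} (hμ : Irreducible μ) (hm : μ.Monic)
    (hconst : ∀ a : K, IsAlgebraic k a → a ∈ (algebraMap k K).range) {θ : K'}
    (hroot : Polynomial.aeval θ μ = 0) (hfr : finrank K K' = μ.natDegree) {a b : K}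
    (hΔ : 4 * a ^ 3 + 27 * b ^ 2 ≠ 0) {R : Type} [Field R] {ζ : R}
    (hζ : IsPrimitiveRoot ζ μ.natDegree) :
    PowerSeries.map (Int.castRingHom R) (Lfun k (algebraMap K K' a) (algebraMap K K' b)) =
      ∏ i ∈ Finset.range μ.natDegree,
        rescale (ζ ^ i) (PowerSeries.map (Int.castRingHom R) (Lfun k a b)) := by
  classical
  set r := μ.natDegree with hr
  have hr0 : 0 < r := hμ.natDegree_pos
  choose S hS1 hS2 hS3 using fun v : Place k K => const_fiber (K' := K') hμ hm hconst hroot hfr v
  have hfin : ∀ n, {v : Place k K | v.deg ≤ n}.Finite := fun n => places_fin n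
  have hfin' : ∀ n, {w : Place k K' | w.deg ≤ n}.Finite := fun n => places_fin n
  -- the left side as a product over the places of `K`
  have hL : Lfun k (algebraMap K K' a) (algebraMap K K' b) =
      eulerProd (fun v : Place k K => v.deg) (fun v => ∏ w ∈ S v,
        invOfUnit (locFactor w (algebraMap K K' a) (algebraMap K K' b) : PowerSeries ℤ) 1) := by
    unfold Lfun
    symm
    refine eulerProd_fiber hfin hfin' (fun w => const_inv w _ _) S ?_ ?_ ?_
    · intro w
      obtain ⟨e, v, h⟩ := exists_below (K := K) w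
      exact ⟨v, hS1 v w e h⟩
    · intro v v' w hw hw'
      exact over_unique_base (hS2 v w hw).1 (hS2 v' w hw').1
    · intro v w hw
      rw [(hS2 v w hw).2]
      exact Nat.le_of_dvd (Nat.lcm_pos (deg_pos' v) hr0) (Nat.dvd_lcm_left _ _)
  rw [hL, map_eulerProd hfin]
  have hR : ∀ i, rescale (ζ ^ i) (PowerSeries.map (Int.castRingHom R) (Lfun k a b)) =
      eulerProd (fun v : Place k K => v.deg) (fun v => rescale (ζ ^ i)
        (PowerSeries.map (Int.castRingHom R)
          (invOfUnit (locFactor v a b : PowerSeries ℤ) 1))) := by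
    intro i
    unfold Lfun
    rw [map_eulerProd hfin, rescale_eulerProd hfin]
  simp_rw [hR]
  rw [← eulerProd_prod hfin]
  · congr 1
    funext v
    have hloc := local_identity h6 hr0 hΔ hζ v (S v) (hS2 v) (hS3 v)
    rw [map_prod]
    have i1 : (∏ w ∈ S v, PowerSeries.map (Int.castRingHom R)
        (locFactor w (algebraMap K K' a) (algebraMap K K' b) : PowerSeries ℤ)) *
        (∏ w ∈ S v, PowerSeries.map (Int.castRingHom R)
          (invOfUnit (locFactor w (algebraMap K K' a) (algebraMap K K' b) : PowerSeries ℤ) 1)) =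
        1 := by
      rw [← Finset.prod_mul_distrib]
      apply Finset.prod_eq_one
      intro w _
      rw [← map_mul, inv_locFactor, map_one]
    have i2 : (∏ i ∈ Finset.range r, rescale (ζ ^ i)
          (PowerSeries.map (Int.castRingHom R) (locFactor v a b : PowerSeries ℤ))) *
        (∏ i ∈ Finset.range r, rescale (ζ ^ i)
          (PowerSeries.map (Int.castRingHom R)
            (invOfUnit (locFactor v a b : PowerSeries ℤ) 1))) = 1 := by
      rw [← Finset.prod_mul_distrib]
      apply Finset.prod_eq_one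
      intro i _
      rw [← map_mul, ← map_mul, inv_locFactor, map_one, map_one]
    rw [← hloc] at i2
    exact left_inv_eq_right_inv (by rw [mul_comm]; exact i1) i2
  · intro i v
    have h1 := map_dvd (rescale (ζ ^ i)) (map_dvd (PowerSeries.map (Int.castRingHom R))
      (const_inv v a b))
    rw [map_sub, map_sub, map_one, map_one, map_pow, PowerSeries.map_X, rescale_Xpow] at h1
    exact (Dvd.intro_left _ rfl).trans h1

end main

end Pool.Agent.Y701.CB
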