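import Pool.Agent.Y701.CB.Base
import Pool.Agent.TH943.KD.Kd

/-!
Multiplicities modulo a prime in a constant extension of degree dividing `l - 1`.
-/

set_option autoImplicit false
set_option linter.all false
set_option maxHeartbeats 4000000

open Module FF

namespace Pool.Agent.Y701.CB

open Pool.Agent.W343.BSD Pool.Agent.H123R3.ZT

section poly

open Polynomial

theorem exists_int_poly {E : Type} [CommRing E] (hφ : Function.Injective (Int.castRingHom E))
    {S : PowerSeries ℤ} {P : E[X]}
    (h : PowerSeries.map (Int.castRingHom E) S = (P : PowerSeries E)) :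
    ∃ Q : ℤ[X], S = (Q : PowerSeries ℤ) := by
  have h0 : ∀ n, (Int.castRingHom E) (PowerSeries.coeff n S) = P.coeff n := fun n => by
    rw [← Polynomial.coeff_coe, ← h, PowerSeries.coeff_map]
  refine ⟨PowerSeries.trunc (P.natDegree + 1) S, ?_⟩
  ext n
  rw [Polynomial.coeff_coe, PowerSeries.coeff_trunc]
  split_ifs with hn
  · rfl
  · apply hφ
    rw [map_zero, h0]
    exact Polynomial.coeff_eq_zero_of_natDegree_lt (by omega)

variable {F : Type} [Field F]

theorem rm_eq_zero {p : F[X]} {x : F} (h : p.eval x ≠ 0) : p.rootMultiplicity x = 0 :=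
  Polynomial.rootMultiplicity_eq_zero h

theorem rm_sub_pow {r : ℕ} (hr : (r : F) ≠ 0) {x : F} (hx : x ≠ 0) :
    (X ^ r - C (x ^ r) : F[X]).rootMultiplicity x = 1 := by
  have hr0 : r ≠ 0 := by
    rintro rfl
    exact hr Nat.cast_zero
  have hne : (X ^ r - C (x ^ r) : F[X]) ≠ 0 := X_pow_sub_C_ne_zero (Nat.pos_of_ne_zero hr0) _
  apply le_antisymm
  · by_contra h
    push Not at h
    rw [one_lt_rootMultiplicity_iff_isRoot hne] at h
    have h2 := h.2
    rw [IsRoot.def, derivative_sub, derivative_C, sub_zero, derivative_X_pow, eval_mul, eval_C,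
      eval_pow, eval_X] at h2
    exact (mul_ne_zero hr (pow_ne_zero _ hx)) h2
  · rw [Nat.succ_le_iff, rootMultiplicity_pos hne, IsRoot.def]
    simp

theorem rm_expand {r : ℕ} (hr : (r : F) ≠ 0) {x : F} (hx : x ≠ 0) {p : F[X]} (hp : p ≠ 0) :
    (expand F r p).rootMultiplicity x = p.rootMultiplicity (x ^ r) := by
  have hr0 : r ≠ 0 := by
    rintro rfl
    exact hr Nat.cast_zero
  obtain ⟨q, hq, hnd⟩ := exists_eq_pow_rootMultiplicity_mul_and_not_dvd p hp (x ^ r)
  have hq0 : q ≠ 0 := by
    rintro rfl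
    exact hnd (dvd_zero _)
  have hqe : q.eval (x ^ r) ≠ 0 := by
    intro h
    exact hnd (dvd_iff_isRoot.2 h)
  have e1 : expand F r p = (X ^ r - C (x ^ r)) ^ p.rootMultiplicity (x ^ r) * expand F r q := by
    conv_lhs => rw [hq]
    rw [map_mul, map_pow, map_sub, expand_X, expand_C]
  have hne : (X ^ r - C (x ^ r) : F[X]) ≠ 0 := X_pow_sub_C_ne_zero (Nat.pos_of_ne_zero hr0) _
  have hqne : expand F r q ≠ 0 := by
    rw [Ne, expand_eq_zero (Nat.pos_of_ne_zero hr0)]
    exact hq0
  rw [e1, rm_mul x (pow_ne_zero _ hne) hqne, rm_pow x hne, rm_sub_pow hr hx, mul_one,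
    rm_eq_zero (p := expand F r q) (by rwa [expand_eval]), add_zero]

/-- rescaling of polynomials -/
theorem rescale_coe (u : F) (p : F[X]) : PowerSeries.rescale u (p : PowerSeries F) =
    ((p.comp (C u * X) : F[X]) : PowerSeries F) := by
  ext i
  rw [PowerSeries.coeff_rescale, Polynomial.coeff_coe, Polynomial.coeff_coe,
    Polynomial.comp_C_mul_X_coeff, mul_comm]

theorem rm_comp {u : F} (hu : u ≠ 0) (p : F[X]) (x : F) :
    (p.comp (C u * X)).rootMultiplicity x = p.rootMultiplicity (u * x) := by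
  have h1 := rootMultiplicity_comp_C_mul_X_add_C p u 0 x hu.isUnit
  rw [C_0, add_zero, add_zero] at h1
  exact h1

end poly

section main

variable {k K k' K' : Type} [Field k] [Finite k] [Field K] [Algebra k K] [FF.IsFF k K]
  [Field k'] [Finite k'] [Field K'] [Algebra k' K'] [Algebra k k'] [Algebra k K'] [Algebra K K']
  [IsScalarTower k K K'] [IsScalarTower k k' K'] [FF.IsFF k K'] [FF.IsFF k' K']
  [FiniteDimensional K K']

omit [Finite k'] [FF.IsFF k K] [FF.IsFF k K'] [FF.IsFF k' K'] [FiniteDimensional K K']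
  [Algebra K K'] [Algebra k K] [Field K] [IsScalarTower k K K'] in
/-- a generator of the constants -/
theorem exists_gen [Finite k'] [Field K'] [Algebra k' K'] [Algebra k K'] [IsScalarTower k k' K'] :
    ∃ (μ : Polynomial k) (θ : K'), Irreducible μ ∧ μ.Monic ∧ Polynomial.aeval θ μ = 0 ∧
      μ.natDegree = finrank k k' := by
  have : Module.Finite k k' := Module.Finite.of_finite
  obtain ⟨α, hα⟩ := Field.exists_primitive_element_of_finite_bot k k'
  have hint : IsIntegral k α := Algebra.IsIntegral.isIntegral α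
  refine ⟨minpoly k α, algebraMap k' K' α, minpoly.irreducible hint, minpoly.monic hint, ?_, ?_⟩
  · rw [Polynomial.aeval_algebraMap_apply, minpoly.aeval, map_zero]
  · calc (minpoly k α).natDegree = Module.finrank k (IntermediateField.adjoin k {α}) :=
        (IntermediateField.adjoin.finrank hint).symm
    _ = Module.finrank k (⊤ : IntermediateField k k') := by rw [hα]
    _ = Module.finrank k k' := IntermediateField.finrank_top'

/-- the `L`-function over the constant extension is a polynomial -/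
theorem base_poly (h6 : (6 : k) ≠ 0)
    (hconst : ∀ a : K, IsAlgebraic k a → a ∈ (algebraMap k K).range)
    (hfr : finrank K K' = finrank k k') {a b : K} (hΔ : 4 * a ^ 3 + 27 * b ^ 2 ≠ 0)
    {P : Polynomial ℤ} (hP : Lfun k a b = (P : PowerSeries ℤ)) :
    ∃ P' : Polynomial ℤ, Lfun k' (algebraMap K K' a) (algebraMap K K' b) =
      (P' : PowerSeries ℤ) := by
  obtain ⟨μ, θ, hμ, hm, hroot, hdeg⟩ := exists_gen (k := k) (k' := k') (K' := K')
  have hr0 : finrank k k' ≠ 0 := by
    rw [← hdeg]; exact hμ.natDegree_pos.ne'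
  have hζ := Complex.isPrimitiveRoot_exp μ.natDegree hμ.natDegree_pos.ne'
  have h1 := base_change (K' := K') h6 hμ hm hconst hroot (hfr.trans hdeg.symm) hΔ hζ
  rw [hP] at h1
  have h2 : PowerSeries.map (Int.castRingHom ℂ)
      (Lfun k (algebraMap K K' a) (algebraMap K K' b)) =
      ((∏ i ∈ Finset.range μ.natDegree, (P.map (Int.castRingHom ℂ)).comp
        (Polynomial.C (Complex.exp (2 * Real.pi * Complex.I / μ.natDegree) ^ i) * Polynomial.X) :
        Polynomial ℂ) : PowerSeries ℂ) := by
    rw [h1, coe_prod']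
    refine Finset.prod_congr rfl fun i _ => ?_
    rw [← Polynomial.polynomial_map_coe, rescale_coe]
  obtain ⟨Q, hQ⟩ := exists_int_poly (RingHom.injective_int _) h2
  have hrel := lfun_rel (k := k) (k' := k') hr0 (algebraMap K K' a) (algebraMap K K' b)
  rw [hQ] at hrel
  refine ⟨PowerSeries.trunc (Q.natDegree + 1) (Lfun k' (algebraMap K K' a) (algebraMap K K' b)),
    ?_⟩
  ext n
  rw [Polynomial.coeff_coe, PowerSeries.coeff_trunc]
  split_ifs with hn
  · rfl
  · have h3 := congrArg (PowerSeries.coeff (finrank k k' * n)) hrel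
    rw [PowerSeries.coeff_expand, if_pos (dvd_mul_right _ _),
      Nat.mul_div_cancel_left _ (Nat.pos_of_ne_zero hr0), Polynomial.coeff_coe,
      Polynomial.coeff_eq_zero_of_natDegree_lt] at h3
    · exact h3.symm
    · have : n ≤ finrank k k' * n := Nat.le_mul_of_pos_left _ (Nat.pos_of_ne_zero hr0)
      omega

variable {l : ℕ} [hl : Fact l.Prime]

/-- the multiplicity over the constant extension -/
theorem base_mult (h6 : (6 : k) ≠ 0)
    (hconst : ∀ a : K, IsAlgebraic k a → a ∈ (algebraMap k K).range)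
    (hfr : finrank K K' = finrank k k') {a b : K} (hΔ : 4 * a ^ 3 + 27 * b ^ 2 ≠ 0)
    (hlk : (l : k) ≠ 0) {ζ : ZMod l} (hζ : IsPrimitiveRoot ζ (finrank k k'))
    {P P' : Polynomial ℤ} (hP : Lfun k a b = (P : PowerSeries ℤ))
    (hP' : Lfun k' (algebraMap K K' a) (algebraMap K K' b) = (P' : PowerSeries ℤ)) :
    (P'.map (Int.castRingHom (ZMod l))).rootMultiplicity ((Nat.card k' : ℕ) : ZMod l)⁻¹ =
      ∑ i ∈ Finset.range (finrank k k'), (P.map (Int.castRingHom (ZMod l))).rootMultiplicity
        (ζ ^ i * ((Nat.card k : ℕ) : ZMod l)⁻¹) := by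
  classical
  obtain ⟨μ, θ, hμ, hm, hroot, hdeg⟩ := exists_gen (k := k) (k' := k') (K' := K')
  have hr0 : finrank k k' ≠ 0 := by
    rw [← hdeg]; exact hμ.natDegree_pos.ne'
  have hζ' : IsPrimitiveRoot ζ μ.natDegree := by rw [hdeg]; exact hζ
  have h1 := base_change (K' := K') h6 hμ hm hconst hroot (hfr.trans hdeg.symm) hΔ hζ'
  rw [hP, lfun_rel (k := k) (k' := k') hr0 (algebraMap K K' a) (algebraMap K K' b), hP',
    ← coe_expand, hdeg] at h1
  have h2 : ((Polynomial.expand ℤ (finrank k k') P').map (Int.castRingHom (ZMod l))) =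
      ∏ i ∈ Finset.range (finrank k k'), (P.map (Int.castRingHom (ZMod l))).comp
        (Polynomial.C (ζ ^ i) * Polynomial.X) := by
    apply Polynomial.coe_injective
    rw [Polynomial.polynomial_map_coe, h1, coe_prod']
    refine Finset.prod_congr rfl fun i _ => ?_
    rw [← Polynomial.polynomial_map_coe, rescale_coe]
  rw [Polynomial.map_expand] at h2
  -- nonvanishing
  have hP0 : P.map (Int.castRingHom (ZMod l)) ≠ 0 := by
    intro h
    have h3 := lfun_modL (k := k) l a b
    rw [hP, redL_poly, h, Polynomial.coe_zero, zero_mul] at h3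
    exact zero_ne_one h3
  have hP0' : P'.map (Int.castRingHom (ZMod l)) ≠ 0 := by
    intro h
    have h3 := lfun_modL (k := k') l (algebraMap K K' a) (algebraMap K K' b)
    rw [hP', redL_poly, h, Polynomial.coe_zero, zero_mul] at h3
    exact zero_ne_one h3
  have hq0 := card_ne_zero_mod (k := k) hlk
  have hζ0 : ζ ≠ 0 := hζ.ne_zero hr0
  -- the degree is prime to `l`
  have hrl : ((finrank k k' : ℕ) : ZMod l) ≠ 0 := by
    intro h
    rw [ZMod.natCast_eq_zero_iff] at h
    have h3 : ζ ^ (l - 1) = 1 := ZMod.pow_card_sub_one_eq_one hζ0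
    have h4 := (hζ.dvd_of_pow_eq_one _ h3)
    have h5 := Nat.le_of_dvd (by have := hl.out.two_le; omega) (h.trans h4)
    have := hl.out.two_le
    omega
  have h3 := congrArg (Polynomial.rootMultiplicity ((Nat.card k : ℕ) : ZMod l)⁻¹) h2
  have hcompne : ∀ i, (P.map (Int.castRingHom (ZMod l))).comp
        (Polynomial.C (ζ ^ i) * Polynomial.X) ≠ 0 := by
    intro i h
    apply hP0
    have h4 := congrArg (fun p : Polynomial (ZMod l) =>
      p.comp (Polynomial.C (ζ ^ i)⁻¹ * Polynomial.X)) h
    simp only [Polynomial.comp_assoc, Polynomial.zero_comp] at h4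
    have h5 : (Polynomial.C (ζ ^ i) * Polynomial.X : Polynomial (ZMod l)).comp
        (Polynomial.C (ζ ^ i)⁻¹ * Polynomial.X) = Polynomial.X := by
      rw [Polynomial.mul_comp, Polynomial.C_comp, Polynomial.X_comp, ← mul_assoc,
        ← Polynomial.C_mul, mul_inv_cancel₀ (pow_ne_zero i hζ0), Polynomial.C_1, one_mul]
    rw [h5, Polynomial.comp_X] at h4
    exact h4
  rw [rm_expand hrl (inv_ne_zero hq0) hP0', rm_prod _ _ _ (fun i _ => hcompne i)] at h3
  have hcard : ((Nat.card k' : ℕ) : ZMod l) = ((Nat.card k : ℕ) : ZMod l) ^ finrank k k' := by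
    have : FiniteDimensional k k' := Module.Finite.of_finite
    rw [Module.natCard_eq_pow_finrank (K := k) (V := k')]
    push_cast
    rfl
  rw [hcard, ← inv_pow, h3]
  exact Finset.sum_congr rfl fun i _ => rm_comp (pow_ne_zero i hζ0) _ _

/-- the Euler factors over the constant extension -/
theorem base_loc (h6 : (6 : k) ≠ 0)
    (hconst : ∀ a : K, IsAlgebraic k a → a ∈ (algebraMap k K).range)
    (hfr : finrank K K' = finrank k k') {a b : K} (hΔ : 4 * a ^ 3 + 27 * b ^ 2 ≠ 0)
    {ζ : ZMod l} (hζ : IsPrimitiveRoot ζ (finrank k k'))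
    {v : Place k K} (w : Place k' K') {e : ℕ} (h : Over (downPlace (k := k) w) v e)
    (hv : ∀ i < finrank k k', (locML l v a b).eval (ζ ^ i * ((Nat.card k : ℕ) : ZMod l)⁻¹) ≠ 0) :
    (locML l w (algebraMap K K' a) (algebraMap K K' b)).eval ((Nat.card k' : ℕ) : ZMod l)⁻¹ ≠ 0 := by
  classical
  obtain ⟨μ, θ, hμ, hm, hroot, hdeg⟩ := exists_gen (k := k) (k' := k') (K' := K')
  have hr0 : 0 < finrank k k' := by
    rw [← hdeg]; exact hμ.natDegree_pos
  obtain ⟨S, hS1, hS2, hS3⟩ := const_fiber (K' := K') hμ hm hconst hroot (hfr.trans hdeg.symm) v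
  have hloc := local_identity h6 hr0 hΔ hζ v S (by rw [← hdeg]; exact hS2)
    (by rw [← hdeg]; exact hS3)
  have h2 : ∏ w ∈ S, locML l w (algebraMap K K' a) (algebraMap K K' b) =
      ∏ i ∈ Finset.range (finrank k k'), (locML l v a b).comp
        (Polynomial.C (ζ ^ i) * Polynomial.X) := by
    apply Polynomial.coe_injective
    rw [coe_prod', coe_prod']
    unfold locML
    simp only [Polynomial.polynomial_map_coe]
    rw [hloc]
    refine Finset.prod_congr rfl fun i _ => ?_
    rw [← Polynomial.polynomial_map_coe, rescale_coe]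
  have h3 := congrArg (Polynomial.eval ((Nat.card k : ℕ) : ZMod l)⁻¹) h2
  rw [Polynomial.eval_prod, Polynomial.eval_prod] at h3
  have h4 : ∏ i ∈ Finset.range (finrank k k'), Polynomial.eval ((Nat.card k : ℕ) : ZMod l)⁻¹
      ((locML l v a b).comp (Polynomial.C (ζ ^ i) * Polynomial.X)) ≠ 0 := by
    rw [Finset.prod_ne_zero_iff]
    intro i hi
    rw [Polynomial.eval_comp, Polynomial.eval_mul, Polynomial.eval_C, Polynomial.eval_X]
    exact hv i (Finset.mem_range.1 hi)
  rw [← h3, Finset.prod_ne_zero_iff] at h4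
  have h5 := h4 _ (hS1 _ e h)
  have hcard : ((Nat.card k' : ℕ) : ZMod l) = ((Nat.card k : ℕ) : ZMod l) ^ finrank k k' := by
    have : FiniteDimensional k k' := Module.Finite.of_finite
    rw [Module.natCard_eq_pow_finrank (K := k) (V := k')]
    push_cast
    rfl
  have h6' : locML l (downPlace (k := k) w) (algebraMap K K' a) (algebraMap K K' b) =
      Polynomial.expand (ZMod l) (finrank k k')
        (locML l w (algebraMap K K' a) (algebraMap K K' b)) := by
    unfold locML
    rw [locFactor_down, Polynomial.map_expand]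
  rw [h6', Polynomial.expand_eval] at h5
  rw [hcard, ← inv_pow]
  exact h5

end main

end Pool.Agent.Y701.CB
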