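import Pool.Agent.W343.BSD.LocalL
import Pool.Agent.W165.CE.FF

/-!
Traces of Weierstrass cubics over extensions of finite fields, singular cubics included.
-/

set_option autoImplicit false
set_option linter.all false
set_option maxHeartbeats 4000000

open Polynomial Finset

namespace Pool.Agent.Y701.CB

open Pool.Agent.W343.BSD W165.CE
open Pool.Agent.H82R3.EK (luc luc_eq sum_Mon_two card_points)
open Pool.Agent.H341R2.Sharp

section

variable {F : Type} [Field F] [Fintype F] [DecidableEq F]

/-- the double root of a singular cubic -/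
theorem exists_double (h2 : (2 : F) ≠ 0) (h3 : (3 : F) ≠ 0) {a b : F}
    (hD : 4 * a ^ 3 + 27 * b ^ 2 = 0) : ∃ e : F, a = -3 * e ^ 2 ∧ b = 2 * e ^ 3 := by
  have h27 : (27 : F) ≠ 0 := by
    have : (27 : F) = 3 ^ 3 := by norm_num
    rw [this]; exact pow_ne_zero 3 h3
  by_cases ha : a = 0
  · refine ⟨0, by rw [ha]; ring, ?_⟩
    rw [ha] at hD
    have h1 : (27 : F) * b ^ 2 = 0 := by linear_combination hD
    have h4 := pow_eq_zero_iff two_ne_zero |>.1 ((mul_eq_zero.1 h1).resolve_left h27)
    rw [h4]; ring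
  · obtain ⟨r, hr⟩ : ∃ r : F, 2 * a * r = -(3 * b) :=
      ⟨-(3 * b) / (2 * a), by field_simp⟩
    have hA1 : a = -3 * r ^ 2 := by
      have h4 : 12 * a ^ 2 * (a + 3 * r ^ 2) = 0 := by
        linear_combination 3 * hD + (18 * a * r - 27 * b) * hr
      have h12 : (12 : F) ≠ 0 := by
        have : (12 : F) = 2 * 2 * 3 := by norm_num
        rw [this]
        exact mul_ne_zero (mul_ne_zero h2 h2) h3
      have h5 := (mul_eq_zero.1 h4).resolve_left (mul_ne_zero h12 (pow_ne_zero 2 ha))
      linear_combination h5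
    refine ⟨r, hA1, ?_⟩
    have h4 : 3 * (b - 2 * r ^ 3) = 0 := by
      rw [hA1] at hr
      linear_combination hr
    have h5 := (mul_eq_zero.1 h4).resolve_left h3
    linear_combination h5

theorem A_two_sing (hF : ringChar F ≠ 2) (h2 : (2 : F) ≠ 0) (h3 : (3 : F) ≠ 0) {a b : F}
    (hD : 4 * a ^ 3 + 27 * b ^ 2 = 0) : A (wei a b) 2 = 0 := by
  obtain ⟨e, ha, hb⟩ := exists_double h2 h3 hD
  have h1 : wei a b = (X - C (-2 * e)) * (X ^ 2 + C (-2 * e) * X + C (e ^ 2)) := by
    unfold wei
    rw [ha, hb]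
    simp only [C_sub, C_neg, C_mul, C_add, C_pow]
    have e2 : (C (2 : F) : F[X]) = 2 := rfl
    have e3 : (C (3 : F) : F[X]) = 3 := rfl
    rw [e2, e3]
    ring
  rw [h1]
  unfold Pool.Agent.H341R2.Sharp.A
  rw [sum_Mon_two]
  simp_rw [lam_split]
  have e1 : ∑ c : F, ∑ b : F, quadraticChar F
      (((-2 * e) ^ 2 + b * (-2 * e) + c) * ((c - e ^ 2) ^ 2 - (-2 * e - b) *
        (b * e ^ 2 - -2 * e * c))) =
      ∑ w : F, ∑ b : F, quadraticChar F ((w + 3 * e ^ 2 - 3 * e * b) * w ^ 2) := by
    rw [← Finset.sum_product' (s := univ) (t := univ), ← Finset.sum_product' (s := univ) (t := univ)]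
    refine Finset.sum_bij' (fun (x : F × F) _ => (x.1 + e * x.2 + e ^ 2, x.2))
      (fun (x : F × F) _ => (x.1 - e * x.2 - e ^ 2, x.2)) ?_ ?_ ?_ ?_ ?_
    · intro x _; simp
    · intro x _; simp
    · rintro ⟨c, b⟩ _
      ext
      · show c + e * b + e ^ 2 - e * b - e ^ 2 = c
        ring
      · rfl
    · rintro ⟨c, b⟩ _
      ext
      · show c - e * b - e ^ 2 + e * b + e ^ 2 = c
        ring
      · rfl
    · rintro ⟨c, b⟩ _
      simp only
      congr 1
      ring
  rw [e1]
  by_cases he : e = 0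
  · subst he
    have e2 : ∀ w b : F, quadraticChar F ((w + 3 * 0 ^ 2 - 3 * 0 * b) * w ^ 2) =
        quadraticChar F w := by
      intro w b
      have : (w + 3 * 0 ^ 2 - 3 * 0 * b) * w ^ 2 = w * w ^ 2 := by ring
      rw [this, map_mul]
      by_cases hw : w = 0
      · rw [hw]; simp
      · rw [quadraticChar_sq_one' hw, mul_one]
    simp_rw [e2]
    rw [Finset.sum_comm]
    simp_rw [quadraticChar_sum_zero hF]
    simp
  · apply Finset.sum_eq_zero
    intro w _
    have e2 : ∀ b : F, quadraticChar F ((w + 3 * e ^ 2 - 3 * e * b) * w ^ 2) =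
        quadraticChar F (w ^ 2) * quadraticChar F (w + 3 * e ^ 2 - 3 * e * b) := by
      intro b
      rw [map_mul, mul_comm]
    simp_rw [e2]
    rw [← Finset.mul_sum]
    have e3 : ∑ b : F, quadraticChar F (w + 3 * e ^ 2 - 3 * e * b) = ∑ b : F, quadraticChar F b := by
      refine Fintype.sum_equiv
        ((Equiv.mulLeft₀ (-3 * e) (mul_ne_zero (neg_ne_zero.2 h3) he)).trans
          (Equiv.addRight (w + 3 * e ^ 2))) _ _ (fun b => ?_)
      show _ = quadraticChar F (-3 * e * b + (w + 3 * e ^ 2))
      congr 1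
      ring
    rw [e3, quadraticChar_sum_zero hF, mul_zero]

end

section ext_

variable {F E : Type} [Field F] [Finite F] [Field E] [Finite E] [Algebra F E]

open Classical in
/-- `q` for nonsingular cubics and `0` for singular ones -/
noncomputable def cc (a b : F) : ℤ := if 4 * a ^ 3 + 27 * b ^ 2 ≠ 0 then (Nat.card F : ℤ) else 0

theorem A_two_all [Fintype F] [DecidableEq F] (h2 : (2 : F) ≠ 0) (h3 : (3 : F) ≠ 0) (a b : F) :
    A (wei a b) 2 = cc a b := by
  have hF : ringChar F ≠ 2 := by
    intro h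
    apply h2
    have := ringChar.Nat.cast_ringChar (R := F)
    rw [h] at this
    exact_mod_cast this
  unfold cc
  split_ifs with h
  · rw [A_two hF a b h, Nat.card_eq_fintype_card]
  · exact A_two_sing hF h2 h3 (not_not.1 h)

/-- the trace over an extension -/
theorem trace_ext (h2 : (2 : F) ≠ 0) (h3 : (3 : F) ≠ 0) (a b : F) :
    (Nat.card E : ℤ) - Nat.card (Sol E (algebraMap F E a) (algebraMap F E b)) =
      luc ((Nat.card F : ℤ) - Nat.card (Sol F a b)) (cc a b) (Module.finrank F E) := by
  classical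
  have : Fintype F := Fintype.ofFinite F
  have : Fintype E := Fintype.ofFinite E
  have hF : ringChar F ≠ 2 := by
    intro h
    apply h2
    have := ringChar.Nat.cast_ringChar (R := F)
    rw [h] at this
    exact_mod_cast this
  have key : ∀ {E : Type} [Field E] [Fintype E] [Algebra F E] [DecidableEq E],
      (Nat.card E : ℤ) - Nat.card (Sol E (algebraMap F E a) (algebraMap F E b)) =
      - T (wei a b) (Module.finrank F E) := by
    intro E _ _ _ _
    have hE : ringChar E ≠ 2 := by
      rwa [← Algebra.ringChar_eq F E]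
    have h1 := card_points hE (fun x => x ^ 3 + algebraMap F E a * x + algebraMap F E b)
    have h1' : (Nat.card (Sol E (algebraMap F E a) (algebraMap F E b)) : ℤ) = _ := h1
    rw [h1', T_eq_sum (E := E) hF, Nat.card_eq_fintype_card]
    have : ∀ x : E, aeval x (wei a b) = x ^ 3 + algebraMap F E a * x + algebraMap F E b := by
      intro x
      rw [aeval_wei]
    simp_rw [this]
    ring
  have h1 := key (E := F)
  rw [Module.finrank_self] at h1
  have h1' : (Nat.card F : ℤ) - Nat.card (Sol F a b) = - T (wei a b) 1 := h1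
  rw [key (E := E), h1']
  have hfin : Module.Finite F E := Module.Finite.of_finite
  have hpos : 0 < Module.finrank F E := Module.finrank_pos
  obtain ⟨n, hn⟩ := Nat.exists_eq_succ_of_ne_zero hpos.ne'
  rw [hn, Nat.succ_eq_add_one, T_luc hF (wei_natDegree _ _) (wei_monic _ _) n,
    A_two_all h2 h3]
  ring

end ext_

end Pool.Agent.Y701.CB
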